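import Pool.Agent.H30.HC.Core

/-!
# MP_014caa_ag: Hartshorne's conjecture for varieties with a large diagonal group of symmetries

Fix `N`, `n ≥ 1` and `e ≥ 1`. The following are equivalent:

1. every nonsingular `X ⊂ ℙ^N` of dimension `n` is a complete intersection;
2. every such `X` that is stable under ALL the diagonal matrices whose entries are `e`-th roots of
   unity (a group of order `e ^ (N + 1)`) is a complete intersection;
3. every such `X` whose homogeneous ideal is generated by polynomials in
   `x_0 ^ e, x_1 ^ e, …, x_N ^ e` is a complete intersection.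

Hence Hartshorne's complete intersection conjecture (the frozen statement `S00005`) is equivalent to
its special case for the ideals generated by polynomials in the `x_i ^ e`, where the exponent
`e = e(N, n)` may depend on `N` and `n` in any way. In particular a variety `X` that has no equations
of degree less than `e`, that is stable under a group of order `e ^ (N + 1)` generated by homologies,
and whose degree is divisible by `e ^ (N - n)` is not easier than the general variety: from one
counterexample in `ℙ^N` one gets for each `e` a counterexample of the same dimension in `ℙ^N` of this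
kind.

Idea of the proof. Let `I` be the ideal of `X`. Choose coordinates `ℓ_0, …, ℓ_N` whose coefficients
are algebraically generic over a countable field of definition of `X`, and let `J` be the ideal
generated by the polynomials `h(x_0 ^ e, …, x_N ^ e)` with `h(ℓ_0, …, ℓ_N) ∈ I`, the pullback of `X`
under the covering `ℙ^N → ℙ^N`, `x ↦ x ^ e`.

* `J` satisfies the Jacobian criterion. Every assignment of values to the coefficients of the `ℓ_i` is
  attained by a derivation of `ℂ` that vanishes on the field of definition, and such derivations give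
  enough tangent vectors (Kleiman's transversality theorem in the language of derivations of `ℂ`).
* `J` is prime. By Kummer theory it is enough that a product `∏ ℓ_i ^ a_i` is an `e`-th power in the
  function field `K` of the cone over `X` only if `e` divides all the `a_i`. If `s ∈ K` is
  transcendental and `(s + t) ^ a M` is an `e`-th power in `K` for infinitely many numbers `t`, then
  `e` divides `a`: by the pigeonhole principle for the embeddings of `K` over a field `L(s)` over which
  `K` is finite, `((s + t) / (s + t')) ^ a` is an `e`-th power in `L(s)` for two numbers `t ≠ t'`.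
* The dimension does not change, since the covering is integral.
* `J` and `I` have the same minimal number of generators, since `ℂ[x]` is free over `ℂ[x ^ e]`.
-/

set_option autoImplicit false

namespace Pool.Agent.Results.MP_014caa_ag.KummerCoverings

/-- `I` is the homogeneous ideal of a nonsingular (irreducible) projective variety of dimension `n`
in `ℙ^N`: a homogeneous prime ideal with quotient of dimension `n + 1` that satisfies the Jacobian
criterion at every point of the punctured cone (these are the hypotheses of `S00005`). -/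
def IsVariety (N n : ℕ) (I : Ideal (MvPolynomial (Fin (N + 1)) ℂ)) : Prop :=
  (∀ f ∈ I, ∀ d : ℕ, MvPolynomial.homogeneousComponent d f ∈ I) ∧
  I.IsPrime ∧
  ringKrullDim (MvPolynomial (Fin (N + 1)) ℂ ⧸ I) = ((n + 1 : ℕ) : WithBot ℕ∞) ∧
  (∀ p : Fin (N + 1) → ℂ, p ≠ 0 →
    (∀ f ∈ I, MvPolynomial.eval p f = 0) →
    ∃ g : Fin (N - n) → MvPolynomial (Fin (N + 1)) ℂ,
      (∀ i, g i ∈ I) ∧
      LinearIndependent ℂ
        (fun i : Fin (N - n) => fun j : Fin (N + 1) =>
          MvPolynomial.eval p (MvPolynomial.pderiv j (g i))))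

/-- `I` is generated by `N - n` homogeneous polynomials (the conclusion of `S00005`). -/
def IsCI (N n : ℕ) (I : Ideal (MvPolynomial (Fin (N + 1)) ℂ)) : Prop :=
  ∃ f : Fin (N - n) → MvPolynomial (Fin (N + 1)) ℂ,
    (∀ i, ∃ d : ℕ, (f i).IsHomogeneous d) ∧ Ideal.span (Set.range f) = I

/-- `I` is generated by polynomials in `x_0 ^ e, …, x_N ^ e`. -/
def IsGeneratedInPowers {N : ℕ} (e : ℕ) (I : Ideal (MvPolynomial (Fin (N + 1)) ℂ)) : Prop :=
  ∃ T : Set (MvPolynomial (Fin (N + 1)) ℂ),
    I = Ideal.span ((fun h => MvPolynomial.aeval (fun i => MvPolynomial.X i ^ e) h) '' T)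

/-- `I` is stable under all the diagonal matrices with `e`-th roots of unity as entries. -/
def IsStable {N : ℕ} (e : ℕ) (I : Ideal (MvPolynomial (Fin (N + 1)) ℂ)) : Prop :=
  ∀ z : Fin (N + 1) → ℂ, (∀ i, z i ^ e = 1) →
    ∀ f ∈ I, MvPolynomial.aeval (fun i => MvPolynomial.C (z i) * MvPolynomial.X i) f ∈ I

/-- An ideal generated by polynomials in the `e`-th powers is stable. -/
lemma IsGeneratedInPowers.isStable {N e : ℕ} {I : Ideal (MvPolynomial (Fin (N + 1)) ℂ)}
    (h : IsGeneratedInPowers e I) : IsStable e I := by
  obtain ⟨T, rfl⟩ := h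
  intro z hz f hf
  refine Submodule.span_induction (p := fun f _ => MvPolynomial.aeval
    (fun i => MvPolynomial.C (z i) * MvPolynomial.X i) f ∈ Ideal.span
    ((fun h => MvPolynomial.aeval (fun i => MvPolynomial.X i ^ e) h) '' T)) ?_ ?_ ?_ ?_ hf
  · rintro _ ⟨h, hh, rfl⟩
    have h1 : (MvPolynomial.aeval (fun i => MvPolynomial.C (z i) * MvPolynomial.X i)).comp
        (MvPolynomial.aeval (fun i => MvPolynomial.X i ^ e)) =
        (MvPolynomial.aeval (fun i => MvPolynomial.X i ^ e) :
          MvPolynomial (Fin (N + 1)) ℂ →ₐ[ℂ] MvPolynomial (Fin (N + 1)) ℂ) := by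
      apply MvPolynomial.algHom_ext
      intro i
      rw [AlgHom.comp_apply, MvPolynomial.aeval_X, map_pow, MvPolynomial.aeval_X, mul_pow,
        ← map_pow, hz, map_one, one_mul]
    have h2 := DFunLike.congr_fun h1 h
    rw [AlgHom.comp_apply] at h2
    change MvPolynomial.aeval (fun i => MvPolynomial.C (z i) * MvPolynomial.X i)
      (MvPolynomial.aeval (fun i => MvPolynomial.X i ^ e) h) ∈ _
    rw [h2]
    exact Ideal.subset_span ⟨h, hh, rfl⟩
  · rw [map_zero]; exact Ideal.zero_mem _
  · intro x y _ _ hx hy
    rw [map_add]; exact Ideal.add_mem _ hx hy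
  · intro a x _ hx
    rw [smul_eq_mul, map_mul]
    exact Ideal.mul_mem_left _ _ hx

/-- **Hartshorne's conjecture and Kummer coverings.** -/
theorem result :
    -- (A) in every `ℙ^N` and in every dimension `n ≥ 1`, for every exponent `e ≥ 1`
    (∀ N n e : ℕ, 1 ≤ n → 1 ≤ e →
      List.TFAE
        [∀ I : Ideal (MvPolynomial (Fin (N + 1)) ℂ), IsVariety N n I → IsCI N n I,
         ∀ I : Ideal (MvPolynomial (Fin (N + 1)) ℂ), IsVariety N n I → IsStable e I → IsCI N n I,
         ∀ I : Ideal (MvPolynomial (Fin (N + 1)) ℂ), IsVariety N n I →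
          IsGeneratedInPowers e I → IsCI N n I]) ∧
    -- (B) the conjecture (the statement `S00005`, verbatim) is equivalent to its special case
    (∀ e : ℕ → ℕ → ℕ, (∀ N n, 1 ≤ e N n) →
      ((∀ (N n : ℕ) (I : Ideal (MvPolynomial (Fin (N + 1)) ℂ)),
          2 * N < 3 * n →
          (∀ f ∈ I, ∀ d : ℕ, MvPolynomial.homogeneousComponent d f ∈ I) →
          I.IsPrime →
          ringKrullDim (MvPolynomial (Fin (N + 1)) ℂ ⧸ I) = ((n + 1 : ℕ) : WithBot ℕ∞) →
          (∀ p : Fin (N + 1) → ℂ, p ≠ 0 →
            (∀ f ∈ I, MvPolynomial.eval p f = 0) →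
            ∃ g : Fin (N - n) → MvPolynomial (Fin (N + 1)) ℂ,
              (∀ i, g i ∈ I) ∧
              LinearIndependent ℂ
                (fun i : Fin (N - n) => fun j : Fin (N + 1) =>
                  MvPolynomial.eval p (MvPolynomial.pderiv j (g i)))) →
          ∃ f : Fin (N - n) → MvPolynomial (Fin (N + 1)) ℂ,
            (∀ i, ∃ d : ℕ, (f i).IsHomogeneous d) ∧
            Ideal.span (Set.range f) = I) ↔
        (∀ (N n : ℕ) (I : Ideal (MvPolynomial (Fin (N + 1)) ℂ)),
          2 * N < 3 * n → IsVariety N n I → IsGeneratedInPowers (e N n) I → IsCI N n I))) := by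
  have core : ∀ N n e : ℕ, 1 ≤ n → 1 ≤ e →
      (∀ I : Ideal (MvPolynomial (Fin (N + 1)) ℂ), IsVariety N n I →
          IsGeneratedInPowers e I → IsCI N n I) →
      ∀ I : Ideal (MvPolynomial (Fin (N + 1)) ℂ), IsVariety N n I → IsCI N n I := by
    intro N n e hn he h I hI
    obtain ⟨J, hJ1, ⟨T, hT⟩, hJ3⟩ := Pool.Agent.H30.HC.core hn he I hI
    exact hJ3 (h J hJ1 ⟨T, hT⟩)
  refine ⟨fun N n e hn he => ?_, fun e he => ⟨?_, ?_⟩⟩
  · tfae_have 1 → 2 := fun h I hI _ => h I hI
    tfae_have 2 → 3 := fun h I hI hT => h I hI hT.isStable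
    tfae_have 3 → 1 := core N n e hn he
    tfae_finish
  · intro h N n I hN hI _
    exact h N n I hN hI.1 hI.2.1 hI.2.2.1 hI.2.2.2
  · intro h N n I hN h1 h2 h3 h4
    have hn : 1 ≤ n := by omega
    exact core N n (e N n) hn (he N n) (fun I hI hT => h N n I hN hI hT) I ⟨h1, h2, h3, h4⟩

end Pool.Agent.Results.MP_014caa_ag.KummerCoverings
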